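import Pool.Agent.Y190.NF.Line

/-!
Hyperbolicity of closed subsets over number fields, and lines.
-/

set_option autoImplicit false

namespace Pool.Agent.Y190.NF

open MvPolynomial Pool.Agent.Y719.SU Pool.Agent.TH143.HE Pool.Agent.Y190.BV Pool.Agent.Y190.AN
  Pool.Agent.W602.GT Pool.Agent.H159R3.GGLLog

variable {K : Type} [Field K] [NumberField K] {N : ℕ}

/-- Every line over a number field `L` (a finite extension of `K`) that is contained in `X` is
contained in `Z`. -/
def NoLineNF (I I' : Ideal (MvPolynomial (Fin (N + 1)) K)) : Prop :=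
  ∀ (L : Type) [Field L] [NumberField L] [Algebra K L] (p q : Fin (N + 1) → L),
    ¬ LineIn (algebraMap K L) I I' p q

/-- a line is a rational curve -/
theorem LineIn.rcur {R A : Type} [CommRing R] [Field A] [Infinite A] {φ : R →+* A}
    {I I' : Ideal (MvPolynomial (Fin (N + 1)) R)} {p q : Fin (N + 1) → A}
    (h : LineIn φ I I' p q) :
    RCur φ I I' (fun j => Polynomial.C (p j) + Polynomial.X * Polynomial.C (q j)) := by
  classical
  obtain ⟨h0, h1, c0, c0', h2⟩ := h
  unfold OnI at h2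
  push Not at h2
  obtain ⟨G', hG', hGh, hne⟩ := h2
  rw [pair_iff] at h0
  obtain ⟨i, j, hij⟩ := h0
  have hev : ∀ (G : MvPolynomial (Fin (N + 1)) R) (u : A),
      (eval₂ (Polynomial.C.comp φ)
        (fun j => Polynomial.C (p j) + Polynomial.X * Polynomial.C (q j)) G).eval u =
      eval₂ φ ((1 : A) • p + u • q) G := by
    intro G u
    rw [eval₂_eval]
    congr 1
    funext j
    simp only [Polynomial.eval_add, Polynomial.eval_C, Polynomial.eval_mul, Polynomial.eval_X,
      Pi.add_apply, Pi.smul_apply, smul_eq_mul, one_mul]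
  refine ⟨fun G hG hGf => ?_, ⟨G', hG', hGh, ?_⟩, i, j, 0, 1, ?_⟩
  · apply Polynomial.funext
    intro u
    rw [hev, Polynomial.eval_zero]
    exact h1 _ _ G hG hGf
  · intro h0
    -- the two-variable form vanishes
    apply hne
    have h3 : ∀ u : A, eval₂ φ ((1 : A) • p + u • q) G' = 0 := fun u => by
      rw [← hev, h0, Polynomial.eval_zero]
    obtain ⟨d, hd⟩ := hGh
    have h4 : X 0 * bin φ p q G' = 0 := by
      apply MvPolynomial.funext
      intro x
      rw [map_mul, eval_X, map_zero]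
      by_cases hx0 : x 0 = 0
      · rw [hx0, zero_mul]
      · have hx : x = ![x 0, x 1] := by
          funext l
          fin_cases l <;> rfl
        rw [hx, bin_eval]
        have e : (x 0 • p + x 1 • q) = fun j => x 0 * ((1 : A) • p + (x 1 / x 0) • q) j := by
          funext j
          simp only [Pi.add_apply, Pi.smul_apply, smul_eq_mul, one_mul]
          field_simp
        have h5 : eval₂ φ (x 0 • p + x 1 • q) G' = 0 := by
          rw [e, Pool.Agent.TH143.HE.eval₂_smul_homog φ _ _ hd, h3, mul_zero]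
        simp only [Matrix.cons_val_zero]
        rw [h5, mul_zero]
    have h6 : bin φ p q G' = 0 := (mul_eq_zero.1 h4).resolve_left (X_ne_zero 0)
    rw [← bin_eval, h6, map_zero]
  · have e0 : ∀ l, (Polynomial.C (p l) + Polynomial.X * Polynomial.C (q l)).coeff 0 = p l := by
      intro l
      simp
    have e1 : ∀ l, (Polynomial.C (p l) + Polynomial.X * Polynomial.C (q l)).coeff 1 = q l := by
      intro l
      simp [Polynomial.coeff_C]
    simp only [e0, e1]
    exact hij

section main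

variable {n m : ℕ}

/-- Hyperbolicity follows if all lines over number fields lie in `Z`. -/
theorem hyp_of_noLine (hm : 2 ≤ m) (hnm : n < 2 * m) (hN : 4 * n < N + 1)
    {a : Fin (N + 1) → K} (ha : Function.Injective a) (σ : K →+* ℂ)
    {I I' : Ideal (MvPolynomial (Fin (N + 1)) K)}
    (hX : ∀ y : Fin (N + 1) → ℂ, OnI σ I y → ∃ H : Polynomial ℂ, H.natDegree ≤ n ∧
      ∀ j, y j ^ m = H.eval (σ (a j))) (h : NoLineNF I I') : Hyperbolic σ I I' := by
  classical
  intro f hf hf0 hfI hnc z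
  by_contra hcon
  unfold OnI at hcon
  push Not at hcon
  obtain ⟨G', hG', hGh, hne⟩ := hcon
  let ι : Type := {G : MvPolynomial (Fin (N + 1)) K // G ∈ I ∧ ∃ d, G.IsHomogeneous d}
  let F : ι → MvPolynomial (Fin (N + 1)) ℂ := fun G => MvPolynomial.map σ G.1
  have hF : ∀ e, IsForm (F e) := fun e => by
    obtain ⟨d, hd⟩ := e.2.2
    exact ⟨d, hd.map σ⟩
  have hval : ∀ (x : Fin (N + 1) → ℂ) (G : MvPolynomial (Fin (N + 1)) K),
      MvPolynomial.eval x (MvPolynomial.map σ G) = eval₂ σ x G := fun x G => by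
    rw [eval_map]
  have hon : ∀ x : Fin (N + 1) → ℂ, (∀ e, eval x (F e) = 0) ↔ OnI σ I x := by
    intro x
    constructor
    · intro h1 G hG hGf
      rw [← hval]
      exact h1 ⟨G, hG, hGf⟩
    · intro h1 e
      rw [hval]
      exact h1 e.1 e.2.1 e.2.2
  have hinj : Function.Injective (fun j => σ (a j)) := σ.injective.comp ha
  have hsub : Cone F ⊆ Cone (buchi (fun j => σ (a j)) n m) := by
    rintro x ⟨hx0, hx⟩
    refine ⟨hx0, ?_⟩
    obtain ⟨H, hH, hHx⟩ := hX x ((hon x).1 fun e => by rw [← val_eq]; exact hx e)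
    exact mem_of_poly _ n m x H hH fun j => (hHx j).symm
  have h3 : SpH ∅ F ⊆ SpLine F := (spH_sub ∅ F).trans (spP_sub hm hnm hN hinj hF hsub)
  have h4 : f z ∈ SpH ∅ F := by
    refine ⟨⟨hf0 z, fun j hj => absurd hj (Set.notMem_empty j), (hon _).2 (hfI z)⟩, ?_⟩
    intro G _ hG
    obtain ⟨z1, z2, h12⟩ := hnc
    exact hG f ⟨hf, fun w => ⟨hf0 w, fun j hj => absurd hj (Set.notMem_empty j),
      (hon _).2 (hfI w)⟩, z1, z2, h12⟩ z
  obtain ⟨-, h5⟩ := h3 h4
  have h6 := h5 (MvPolynomial.map σ G') (by obtain ⟨d, hd⟩ := hGh; exact ⟨d, hd.map σ⟩)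
  have h7 : ∃ A B : Fin (N + 1) → ℂ, Line F A B ∧ ∃ c c' : ℂ,
      val (c • A + c' • B) (MvPolynomial.map σ G') ≠ 0 := by
    by_contra hcon
    push Not at hcon
    apply hne
    rw [← hval, ← val_eq]
    exact h6 fun A B hAB => hcon A B hAB
  obtain ⟨A, B, ⟨hli, hAB⟩, c, c', hcc⟩ := h7
  let _ : Algebra K ℂ := σ.toAlgebra
  have h8 : LineIn ((algebraMap K ℂ).comp (RingHom.id K)) I I' A B := by
    refine ⟨hli, fun c c' => ?_, c, c', fun h9 => hcc ?_⟩
    · exact (hon _).1 fun e => by rw [← val_eq]; exact hAB c c' e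
    · rw [val_eq, hval]
      exact h9 G' hG' hGh
  obtain ⟨L, _, _, _, p', q', h9⟩ := LineIn.spec (k := K) (E := ℂ) (RingHom.id K) h8
  have hchar : CharZero L := charZero_of_injective_algebraMap (algebraMap K L).injective
  have hfin : FiniteDimensional ℚ L := FiniteDimensional.trans ℚ K L
  have hnf : NumberField L := ⟨⟩
  rw [RingHom.comp_id] at h9
  exact h L p' q' h9

/-- the equivalence -/
theorem lang_main (hm : 2 ≤ m) (hnm : n < 2 * m) (hN : 4 * n < N + 1)
    {a : Fin (N + 1) → K} (ha : Function.Injective a) (σ : K →+* ℂ)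
    {I I' : Ideal (MvPolynomial (Fin (N + 1)) K)}
    (hX : ∀ y : Fin (N + 1) → ℂ, OnI σ I y → ∃ H : Polynomial ℂ, H.natDegree ≤ n ∧
      ∀ j, y j ^ m = H.eval (σ (a j))) :
    [Hyperbolic σ I I', NoRat σ I I', NoRatNF I I', NoLineNF I I', HtBound I I',
      FinBound I I'].TFAE ∧ (Finiteness I I' → Hyperbolic σ I I') := by
  have h1 : NoLineNF I I' → Hyperbolic σ I I' := hyp_of_noLine hm hnm hN ha σ hX
  have h2 : NoRatNF I I' → NoLineNF I I' := by
    intro h L _ _ _ p q hpq
    exact h L _ hpq.rcur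
  refine ⟨?_, fun h => h1 (h2 (noRat_of_fin (fin_of_finiteness h)))⟩
  tfae_have 1 → 2 := noRat_of_hyp σ
  tfae_have 2 → 3 := noRatNF_of σ
  tfae_have 3 → 4 := h2
  tfae_have 4 → 1 := h1
  tfae_have 3 → 5 := ht_of_noRat
  tfae_have 5 → 6 := fin_of_ht
  tfae_have 6 → 3 := noRat_of_fin
  tfae_finish

end main

end Pool.Agent.Y190.NF
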