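import Pool.Agent.Y719.SU.Main
import Pool.Agent.Y190.AN.Pic

/-!
Lines over number fields.
-/

set_option autoImplicit false

namespace Pool.Agent.Y190.NF

open MvPolynomial Pool.Agent.Y719.SU Pool.Agent.TH143.HE

variable {N : ℕ}

theorem pair_iff {R : Type*} [Field R] {n : ℕ} (x y : Fin n → R) :
    LinearIndependent R ![x, y] ↔ ∃ i j, x i * y j ≠ x j * y i := by
  rw [LinearIndependent.pair_iff]
  constructor
  · intro h
    by_contra hcon
    push Not at hcon
    by_cases hx : x = 0
    · have h1 := h 1 0 (by rw [hx]; simp)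
      exact one_ne_zero h1.1
    · obtain ⟨i, hi⟩ := Function.ne_iff.1 hx
      have hxi : x i ≠ 0 := hi
      have h1 := h (y i) (- x i) (by
        funext j
        simp only [Pi.add_apply, Pi.smul_apply, smul_eq_mul, Pi.zero_apply]
        linear_combination -(hcon i j))
      exact hxi (neg_eq_zero.1 h1.2)
  · rintro ⟨i, j, hij⟩ s t hst
    have h1 := congrFun hst i
    have h2 := congrFun hst j
    simp only [Pi.add_apply, Pi.smul_apply, smul_eq_mul, Pi.zero_apply] at h1 h2
    have h3 : x i * y j - x j * y i ≠ 0 := sub_ne_zero.2 hij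
    constructor
    · apply (mul_eq_zero.1 (show s * (x i * y j - x j * y i) = 0 by
        linear_combination y j * h1 - y i * h2)).resolve_right h3
    · apply (mul_eq_zero.1 (show t * (x i * y j - x j * y i) = 0 by
        linear_combination x i * h2 - x j * h1)).resolve_right h3

/-- The line through the points with coordinates `p` and `q` is contained in the projective variety
given by the forms in `I`, but not in the one given by the forms in `I'`. -/
def LineIn {R A : Type} [CommRing R] [Field A] (φ : R →+* A)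
    (I I' : Ideal (MvPolynomial (Fin (N + 1)) R)) (p q : Fin (N + 1) → A) : Prop :=
  LinearIndependent A ![p, q] ∧ (∀ c c' : A, OnI φ I (c • p + c' • q)) ∧
    ∃ c c' : A, ¬ OnI φ I' (c • p + c' • q)

/-- the two-variable form -/
noncomputable def bin {R A : Type} [CommRing R] [CommRing A] (φ : R →+* A)
    (p q : Fin (N + 1) → A) (G : MvPolynomial (Fin (N + 1)) R) : MvPolynomial (Fin 2) A :=
  eval₂ (MvPolynomial.C.comp φ) (fun j => C (p j) * X 0 + C (q j) * X 1) G

theorem bin_eval {R A : Type} [CommRing R] [CommRing A] (φ : R →+* A) (p q : Fin (N + 1) → A)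
    (G : MvPolynomial (Fin (N + 1)) R) (c c' : A) :
    eval ![c, c'] (bin φ p q G) = eval₂ φ (c • p + c' • q) G := by
  unfold bin
  rw [eval₂_comp_left (eval ![c, c']) (C.comp φ) _ G]
  congr 1
  · ext r
    simp
  · funext j
    simp [mul_comm]

theorem bin_map {R A B : Type} [CommRing R] [CommRing A] [CommRing B] (φ : R →+* A) (g : A →+* B)
    (p q : Fin (N + 1) → A) (G : MvPolynomial (Fin (N + 1)) R) :
    MvPolynomial.map g (bin φ p q G) = bin (g.comp φ) (g ∘ p) (g ∘ q) G := by
  unfold bin
  rw [eval₂_comp_left (MvPolynomial.map g) (C.comp φ) _ G]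
  congr 1
  · ext r
    simp
  · funext j
    simp

/-- A line over an extension field gives a line over a finite extension. -/
theorem LineIn.spec {R k E : Type} [CommRing R] [Field k] [Field E] [Infinite k] [Algebra k E]
    (φ : R →+* k) {I I' : Ideal (MvPolynomial (Fin (N + 1)) R)} {p q : Fin (N + 1) → E}
    (h : LineIn ((algebraMap k E).comp φ) I I' p q) :
    ∃ (L : Type) (_ : Field L) (_ : Algebra k L) (_ : FiniteDimensional k L)
      (p' q' : Fin (N + 1) → L), LineIn ((algebraMap k L).comp φ) I I' p' q' := by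
  classical
  have hE : Infinite E := Infinite.of_injective _ (algebraMap k E).injective
  obtain ⟨h0, h1, c0, c0', h2⟩ := h
  unfold OnI at h2
  push Not at h2
  obtain ⟨G', hG', hGh, hne⟩ := h2
  rw [pair_iff] at h0
  obtain ⟨i, j, hij⟩ := h0
  -- the nonzero elements
  set e1 : E := p i * q j - p j * q i with he1
  have he10 : e1 ≠ 0 := sub_ne_zero.2 hij
  have hB0 : bin ((algebraMap k E).comp φ) p q G' ≠ 0 := by
    intro h
    apply hne
    rw [← bin_eval, h, map_zero]
  obtain ⟨α, hα⟩ := MvPolynomial.ne_zero_iff.1 hB0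
  set e2 : E := coeff α (bin ((algebraMap k E).comp φ) p q G') with he2
  let s : Finset E := (Finset.univ.image p ∪ Finset.univ.image q) ∪ {e1⁻¹, e2⁻¹}
  let A := Algebra.adjoin k (s : Set E)
  have hs : ∀ x ∈ s, x ∈ A := fun x hx => Algebra.subset_adjoin hx
  have hA : Algebra.FiniteType k A :=
    ⟨(Subalgebra.fg_top A).2 ⟨s, rfl⟩⟩
  obtain ⟨m, hm⟩ := Ideal.exists_maximal A
  let _ : Field (A ⧸ m) := Ideal.Quotient.field m
  have hft : Algebra.FiniteType k (A ⧸ m) :=
    Algebra.FiniteType.of_surjective (Ideal.Quotient.mkₐ k m) Ideal.Quotient.mk_surjective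
  have hfin : Module.Finite k (A ⧸ m) := finite_of_finite_type_of_isJacobsonRing k (A ⧸ m)
  let θ : A →ₐ[k] A ⧸ m := Ideal.Quotient.mkₐ k m
  have hinj : Function.Injective (algebraMap A E) := Subtype.val_injective
  have hp : ∀ l, p l ∈ A := fun l => hs _ (by simp [s])
  have hq : ∀ l, q l ∈ A := fun l => hs _ (by simp [s])
  let P : Fin (N + 1) → A := fun l => ⟨p l, hp l⟩
  let Q : Fin (N + 1) → A := fun l => ⟨q l, hq l⟩
  have hcur : ∀ G, MvPolynomial.map (algebraMap A E)
      (bin ((algebraMap k A).comp φ) P Q G) = bin ((algebraMap k E).comp φ) p q G := by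
    intro G
    rw [bin_map]
    rfl
  have hcur' : ∀ G, MvPolynomial.map (θ : A →+* A ⧸ m)
      (bin ((algebraMap k A).comp φ) P Q G) = bin ((algebraMap k (A ⧸ m)).comp φ)
        (fun l => θ (P l)) (fun l => θ (Q l)) G := by
    intro G
    rw [bin_map]
    rfl
  have hunit : ∀ x : A, ((x : E))⁻¹ ∈ s → (x : E) ≠ 0 → θ x ≠ 0 := by
    intro x hx hx0 h0
    have h2 : x * ⟨_, hs _ hx⟩ = 1 := Subtype.ext (mul_inv_cancel₀ hx0)
    have h3 := congrArg θ h2
    rw [map_mul, h0, zero_mul, map_one] at h3
    exact zero_ne_one h3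
  have hinfq : Infinite (A ⧸ m) := Infinite.of_injective _ (algebraMap k (A ⧸ m)).injective
  refine ⟨A ⧸ m, inferInstance, inferInstance, hfin, fun l => θ (P l), fun l => θ (Q l), ?_, ?_, ?_⟩
  · rw [pair_iff]
    refine ⟨i, j, fun h0 => ?_⟩
    have h3 : ((P i * Q j - P j * Q i : A) : E) = e1 := rfl
    refine hunit (P i * Q j - P j * Q i) ?_ ?_ ?_
    · rw [h3]; simp [s]
    · rw [h3]; exact he10
    · rw [map_sub, map_mul, map_mul, sub_eq_zero]
      exact h0
  · intro c c' G hG hGf
    have h3 : bin ((algebraMap k A).comp φ) P Q G = 0 := by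
      apply MvPolynomial.map_injective _ hinj
      rw [hcur, map_zero]
      apply MvPolynomial.funext
      intro x
      have hx : x = ![x 0, x 1] := by
        funext l
        fin_cases l <;> rfl
      rw [hx, bin_eval, map_zero]
      exact h1 _ _ G hG hGf
    rw [← bin_eval, ← hcur', h3, map_zero, map_zero]
  · by_contra hcon
    push Not at hcon
    have h4 : bin ((algebraMap k (A ⧸ m)).comp φ) (fun l => θ (P l)) (fun l => θ (Q l)) G' = 0 := by
      apply MvPolynomial.funext
      intro x
      have hx : x = ![x 0, x 1] := by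
        funext l
        fin_cases l <;> rfl
      rw [hx, bin_eval, map_zero]
      exact hcon _ _ G' hG' hGh
    rw [← hcur'] at h4
    have h5 : ((coeff α (bin ((algebraMap k A).comp φ) P Q G') : A) : E) = e2 := by
      rw [he2, ← hcur, coeff_map]
      rfl
    refine hunit (coeff α (bin ((algebraMap k A).comp φ) P Q G')) ?_ ?_ ?_
    · rw [h5]; simp [s]
    · rw [h5]; exact hα
    · have h6 := congrArg (coeff α) h4
      rw [coeff_map, coeff_zero] at h6
      exact h6

end Pool.Agent.Y190.NF
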